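import Pool.Agent.Q44.LD.Stm
import Pool.Agent.Q182.JQ.PROB

/-!
# LD-PROBF: the character sum identity for several forms
-/

set_option autoImplicit false
set_option linter.unusedVariables false
set_option linter.unusedSectionVars false

namespace Q58.LD

open Finset Module Q44.JQ Q44.LD Q182.JQ
open Pool.Agent.Y703.CQ (prs ext)
open scoped Classical

section

variable {ι : Type} [Fintype ι] [LinearOrder ι]

theorem ext_symm (α : prs (univ : Finset ι) → ZMod 2) (k l : ι) : ext α k l = ext α l k := by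
  rw [ext_eq, ext_eq, add_comm]

theorem ext_self (α : prs (univ : Finset ι) → ZMod 2) (k : ι) : ext α k k = 0 := by
  rw [ext_eq]
  unfold hf
  have h : (k, k) ∉ prs (univ : Finset ι) := by
    rw [mem_prs]
    exact lt_irrefl k
  rw [dif_neg h, add_zero]

/-- the restricted symbols -/
theorem ext_ra (B : ι → Prop) (α : prs (univ : Finset ι) → ZMod 2) (i j : {i // B i}) :
    ext (ra B α) i j = ext α (i : ι) (j : ι) := by
  rw [ext_eq]
  unfold hf
  rcases lt_trichotomy i j with h | h | h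
  · have h1 : (i, j) ∈ prs (univ : Finset {i // B i}) := (mem_prs i j).2 h
    have h2 : (j, i) ∉ prs (univ : Finset {i // B i}) := by
      rw [mem_prs]
      exact not_lt_of_gt h
    rw [dif_pos h1, dif_neg h2, add_zero]
    rfl
  · subst h
    have h1 : (i, i) ∉ prs (univ : Finset {i // B i}) := by
      rw [mem_prs]
      exact lt_irrefl i
    rw [dif_neg h1, add_zero, ext_self]
  · have h1 : (j, i) ∈ prs (univ : Finset {i // B i}) := (mem_prs j i).2 h
    have h2 : (i, j) ∉ prs (univ : Finset {i // B i}) := by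
      rw [mem_prs]
      exact not_lt_of_gt h
    rw [dif_pos h1, dif_neg h2, zero_add, ext_symm]
    rfl

/-- a double sum over a subtype -/
theorem sum_sub (B : ι → Prop) (g : {i // B i} → {i // B i} → ZMod 2) :
    ∑ i : {i // B i}, ∑ j : {i // B i}, g i j =
      ∑ k : ι, ∑ l : ι, if h : B k ∧ B l then g ⟨k, h.1⟩ ⟨l, h.2⟩ else 0 := by
  have h1 : ∀ F : {i // B i} → ZMod 2, ∑ i : {i // B i}, F i =
      ∑ k : ι, if h : B k then F ⟨k, h⟩ else 0 := by
    intro F
    rw [Finset.sum_dite]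
    simp only [sum_const_zero, add_zero]
    refine (Finset.sum_bij' (fun i _ => ⟨i.1, by simpa using i.2⟩)
      (fun k _ => ⟨k.1, (Finset.mem_filter.1 k.2).2⟩) ?_ ?_ ?_ ?_ ?_)
    · intro i _
      simp
    · intro k _
      simp
    · intro i _
      rfl
    · intro k _
      rfl
    · intro i _
      rfl
  rw [h1]
  refine Finset.sum_congr rfl fun k _ => ?_
  by_cases hk : B k
  · rw [dif_pos hk, h1]
    refine Finset.sum_congr rfl fun l _ => ?_
    by_cases hl : B l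
    · rw [dif_pos hl, dif_pos ⟨hk, hl⟩]
    · rw [dif_neg hl, dif_neg fun h => hl h.2]
  · rw [dif_neg hk]
    symm
    refine Finset.sum_eq_zero fun l _ => ?_
    rw [dif_neg fun h => hk h.1]

end

section main

variable {s U ι F : Type} [Fintype s] [Fintype U] [Fintype ι] [LinearOrder ι] [Fintype F]
  {V : F → Type} [∀ f, AddCommGroup (V f)] [∀ f, Module (ZMod 2) (V f)]

theorem row_f (t₀ : s) (D : ∀ f, Dj s (V f)) (hs : ∀ f, (D f).s₀ = t₀) (b : Bk s U ι)
    (A : F → U → Prop) (B : F → ι → Prop)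
    (e : ∀ f, (s → V f) × ({u // A f u} ⊕ {i // B f i} → V f))
    (α : prs (univ : Finset ι) → ZMod 2) (f : F) (i : {i // B f i}) :
    rowL (D f) ((sb b (A f) (B f)).N t₀ (ra (B f) α)) (sb b (A f) (B f)).h (e f) (Sum.inr i) =
      rowL (D f) ((sb b (A f) (B f)).N t₀ 0) (sb b (A f) (B f)).h (e f) (Sum.inr i) +
      ∑ j : {i // B f i}, ext α (i : ι) (j : ι) • ((e f).2 (Sum.inr j) + (e f).2 (Sum.inr i)) := by
  have h := row_add (D f) (sb b (A f) (B f)) (e f) (ra (B f) α) i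
  rw [hs f] at h
  simp only [ext_ra] at h
  exact h

/-- the number `lk` for the family -/
theorem lk_eq (ω : ∀ f, V f →ₗ[ZMod 2] V f →ₗ[ZMod 2] ZMod 2) (B : F → ι → Prop)
    (x W : ∀ f, {i // B f i} → V f) (k l : ι) :
    lk ω B (fun f i => (x f i, W f i)) k l =
      (∑ f, if h : B f k ∧ B f l then ω f (W f ⟨k, h.1⟩) (x f ⟨l, h.2⟩ + x f ⟨k, h.1⟩) else 0) +
      ∑ f, if h : B f l ∧ B f k then ω f (W f ⟨l, h.1⟩) (x f ⟨k, h.2⟩ + x f ⟨l, h.1⟩) else 0 := by
  unfold lk
  rw [← Finset.sum_add_distrib]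
  refine Finset.sum_congr rfl fun f _ => ?_
  by_cases h : B f k ∧ B f l
  · rw [dif_pos h, dif_pos h, dif_pos ⟨h.2, h.1⟩]
    simp only [Prod.snd_add, Prod.fst_add]
    rw [map_add (ω f), LinearMap.add_apply, add_comm (x f ⟨l, h.2⟩) (x f ⟨k, h.1⟩)]
  · rw [dif_neg h, dif_neg h, dif_neg fun h' => h ⟨h'.2, h'.1⟩, add_zero]

theorem lk_symm (ω : ∀ f, V f →ₗ[ZMod 2] V f →ₗ[ZMod 2] ZMod 2) (B : F → ι → Prop)
    (x W : ∀ f, {i // B f i} → V f) (k l : ι) :
    lk ω B (fun f i => (x f i, W f i)) k l = lk ω B (fun f i => (x f i, W f i)) l k := by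
  rw [lk_eq, lk_eq, add_comm]

theorem z2_add_self (a : ZMod 2) : a + a = 0 := by
  revert a; decide

theorem lk_self (ω : ∀ f, V f →ₗ[ZMod 2] V f →ₗ[ZMod 2] ZMod 2) (B : F → ι → Prop)
    (x W : ∀ f, {i // B f i} → V f) (k : ι) :
    lk ω B (fun f i => (x f i, W f i)) k k = 0 := by
  rw [lk_eq, z2_add_self]

theorem unl_iff (ω : ∀ f, V f →ₗ[ZMod 2] V f →ₗ[ZMod 2] ZMod 2) (B : F → ι → Prop)
    (x W : ∀ f, {i // B f i} → V f) :
    Unl ω B (fun f i => (x f i, W f i)) ↔
      ∀ p : prs (univ : Finset ι), lk ω B (fun f i => (x f i, W f i)) p.1.1 p.1.2 = 0 := by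
  constructor
  · intro h p
    exact h _ _
  · intro h i j
    rcases lt_trichotomy i j with h1 | h1 | h1
    · exact h ⟨(i, j), (mem_prs i j).2 h1⟩
    · subst h1
      exact lk_self ω B x W i
    · rw [lk_symm]
      exact h ⟨(j, i), (mem_prs j i).2 h1⟩

/-- the exponent -/
theorem expo_f (t₀ : s) (D : ∀ f, Dj s (V f)) (hs : ∀ f, (D f).s₀ = t₀) (b : Bk s U ι)
    (A : F → U → Prop) (B : F → ι → Prop)
    (e : ∀ f, (s → V f) × ({u // A f u} ⊕ {i // B f i} → V f))
    (W : ∀ f, {i // B f i} → V f) (α : prs (univ : Finset ι) → ZMod 2) :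
    ∑ f, ∑ i : {i // B f i}, (D f).ω (W f i) (rowL (D f) ((sb b (A f) (B f)).N t₀ (ra (B f) α))
        (sb b (A f) (B f)).h (e f) (Sum.inr i)) =
      ∑ f, ∑ i : {i // B f i}, (D f).ω (W f i) (rowL (D f) ((sb b (A f) (B f)).N t₀ 0)
        (sb b (A f) (B f)).h (e f) (Sum.inr i)) +
      ∑ p : prs (univ : Finset ι), α p *
        lk (fun f => (D f).ω) B (fun f i => ((e f).2 (Sum.inr i), W f i)) p.1.1 p.1.2 := by
  have h1 : ∀ f, ∑ i : {i // B f i}, (D f).ω (W f i)
      (rowL (D f) ((sb b (A f) (B f)).N t₀ (ra (B f) α))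
        (sb b (A f) (B f)).h (e f) (Sum.inr i)) =
      ∑ i : {i // B f i}, (D f).ω (W f i) (rowL (D f) ((sb b (A f) (B f)).N t₀ 0)
        (sb b (A f) (B f)).h (e f) (Sum.inr i)) +
      ∑ k : ι, ∑ l : ι, ext α k l * (if h : B f k ∧ B f l then
        (D f).ω (W f ⟨k, h.1⟩) ((e f).2 (Sum.inr ⟨l, h.2⟩) + (e f).2 (Sum.inr ⟨k, h.1⟩))
        else 0) := by
    intro f
    have h2 : ∑ i : {i // B f i}, (D f).ω (W f i)
        (rowL (D f) ((sb b (A f) (B f)).N t₀ (ra (B f) α))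
          (sb b (A f) (B f)).h (e f) (Sum.inr i)) =
        ∑ i : {i // B f i}, (D f).ω (W f i) (rowL (D f) ((sb b (A f) (B f)).N t₀ 0)
          (sb b (A f) (B f)).h (e f) (Sum.inr i)) +
        ∑ i : {i // B f i}, ∑ j : {i // B f i}, ext α (i : ι) (j : ι) *
          (D f).ω (W f i) ((e f).2 (Sum.inr j) + (e f).2 (Sum.inr i)) := by
      rw [← sum_add_distrib]
      refine Finset.sum_congr rfl fun i _ => ?_
      rw [row_f t₀ D hs b A B e α f i, map_add, map_sum]
      simp only [map_smul, smul_eq_mul]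
    rw [h2, sum_sub (B f) (fun i j => ext α (i : ι) (j : ι) *
          (D f).ω (W f i) ((e f).2 (Sum.inr j) + (e f).2 (Sum.inr i)))]
    refine congrArg₂ (· + ·) rfl (Finset.sum_congr rfl fun k _ => Finset.sum_congr rfl fun l _ => ?_)
    by_cases h : B f k ∧ B f l
    · rw [dif_pos h, dif_pos h]
    · rw [dif_neg h, dif_neg h, mul_zero]
  simp only [h1, sum_add_distrib]
  refine congrArg₂ (· + ·) rfl ?_
  have h3 : ∑ f, ∑ k : ι, ∑ l : ι, ext α k l * (if h : B f k ∧ B f l then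
        (D f).ω (W f ⟨k, h.1⟩) ((e f).2 (Sum.inr ⟨l, h.2⟩) + (e f).2 (Sum.inr ⟨k, h.1⟩))
        else 0) =
      ∑ k : ι, ∑ l : ι, ext α k l * ∑ f, (if h : B f k ∧ B f l then
        (D f).ω (W f ⟨k, h.1⟩) ((e f).2 (Sum.inr ⟨l, h.2⟩) + (e f).2 (Sum.inr ⟨k, h.1⟩))
        else 0) := by
    rw [Finset.sum_comm]
    refine Finset.sum_congr rfl fun k _ => ?_
    rw [Finset.sum_comm]
    refine Finset.sum_congr rfl fun l _ => ?_
    rw [Finset.mul_sum]
  rw [h3, sum_ext α fun k l => ∑ f, (if h : B f k ∧ B f l then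
        (D f).ω (W f ⟨k, h.1⟩) ((e f).2 (Sum.inr ⟨l, h.2⟩) + (e f).2 (Sum.inr ⟨k, h.1⟩))
        else 0)]
  refine Finset.sum_congr rfl fun p _ => ?_
  rw [lk_eq (fun f => (D f).ω) B (fun f i => (e f).2 (Sum.inr i)) W p.1.1 p.1.2]

end main

theorem t_PROBF : S_PROBF := by
  intro s U ι F _ _ _ _ _ V _ _ _ t₀ D hs hD nd b A B e
  set R : (prs (univ : Finset ι) → ZMod 2) → ∀ f, {i // B f i} → V f := fun α f i =>
    rowL (D f) ((sb b (A f) (B f)).N t₀ (ra (B f) α)) (sb b (A f) (B f)).h (e f) (Sum.inr i)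
    with hR
  have h1 : ∀ α, ∑ W : ∀ f, {i // B f i} → V f, sg (∑ f, ∑ i, (D f).ω (W f i) (R α f i)) =
      if ∀ f, ∀ i, R α f i = 0 then ∏ f, (Fintype.card (V f) : ℝ) ^ Nat.card {i // B f i}
        else 0 := by
    intro α
    have h2 : ∑ W : ∀ f, {i // B f i} → V f, sg (∑ f, ∑ i, (D f).ω (W f i) (R α f i)) =
        ∏ f, ∑ W : {i // B f i} → V f, sg (∑ i, (D f).ω (W i) (R α f i)) := by
      rw [Finset.prod_univ_sum]
      simp only [Fintype.piFinset_univ]
      exact Finset.sum_congr rfl fun W _ => sg_sum _ _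
    rw [h2]
    have h3 : ∀ f, ∑ W : {i // B f i} → V f, sg (∑ i, (D f).ω (W i) (R α f i)) =
        if ∀ i, R α f i = 0 then (Fintype.card (V f) : ℝ) ^ Nat.card {i // B f i} else 0 := by
      intro f
      rw [sum_pi fun i v => (D f).ω v (R α f i)]
      simp only [sum_sg (D f).ω (hD f).alt (nd f)]
      by_cases hc : ∀ i, R α f i = 0
      · rw [if_pos hc, Finset.prod_congr rfl fun p _ => if_pos (hc p)]
        simp
      · rw [if_neg hc]
        push Not at hc
        obtain ⟨p, hp⟩ := hc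
        exact Finset.prod_eq_zero (mem_univ p) (if_neg hp)
    simp only [h3]
    by_cases hc : ∀ f, ∀ i, R α f i = 0
    · rw [if_pos hc, Finset.prod_congr rfl fun f _ => if_pos (hc f)]
    · rw [if_neg hc]
      push Not at hc
      obtain ⟨f, p, hp⟩ := hc
      exact Finset.prod_eq_zero (mem_univ f) (if_neg fun h => hp (h p))
  have h2 : (((univ : Finset (prs (univ : Finset ι) → ZMod 2)).filter fun α =>
      ∀ f, ∀ i, R α f i = 0).card : ℝ) *
        ∏ f, (Fintype.card (V f) : ℝ) ^ Nat.card {i // B f i} =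
      ∑ α, ∑ W : ∀ f, {i // B f i} → V f, sg (∑ f, ∑ i, (D f).ω (W f i) (R α f i)) := by
    simp only [h1]
    rw [← Finset.sum_filter, Finset.sum_const, nsmul_eq_mul]
  show (((univ : Finset (prs (univ : Finset ι) → ZMod 2)).filter fun α =>
      ∀ f, ∀ i, R α f i = 0).card : ℝ) *
        ∏ f, (Fintype.card (V f) : ℝ) ^ Nat.card {i // B f i} = _
  rw [h2, Finset.sum_comm, Finset.mul_sum]
  refine Finset.sum_congr rfl fun W _ => ?_
  have h3 : ∀ α, sg (∑ f, ∑ i, (D f).ω (W f i) (R α f i)) =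
      sg (∑ f, ∑ i : {i // B f i}, (D f).ω (W f i) (rowL (D f) ((sb b (A f) (B f)).N t₀ 0)
        (sb b (A f) (B f)).h (e f) (Sum.inr i))) * sg (∑ p : prs (univ : Finset ι), α p *
        lk (fun f => (D f).ω) B (fun f i => ((e f).2 (Sum.inr i), W f i)) p.1.1 p.1.2) := by
    intro α
    rw [← sg_add]
    exact congrArg sg (expo_f t₀ D hs b A B e W α)
  rw [Finset.sum_congr rfl fun α _ => h3 α]
  rw [← Finset.mul_sum, sum_alpha]
  have h4 := unl_iff (fun f => (D f).ω) B (fun f i => (e f).2 (Sum.inr i)) W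
  by_cases hc : Unl (fun f => (D f).ω) B (fun f i => ((e f).2 (Sum.inr i), W f i))
  · rw [if_pos hc, if_pos (h4.1 hc)]
    rw [Fintype.card_coe, mul_comm]
  · rw [if_neg hc, if_neg fun h => hc (h4.2 h)]
    ring

end Q58.LD
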